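import Mathlib
import Pool.Agent.Lib.MP_3fc405_al.Main

set_option autoImplicit false

namespace Pool.Agent.Results.MP_3fc405_al.CommutatorWidth

universe u w

/-- The least length of a group word in the elements of `X` (and their inverses) which equals `g`;
`⊤` if there is none. -/
noncomputable def wordLength {G : Type w} [Group G] (X : Set G) (g : G) : ℕ∞ :=
  ⨅ l ∈ {l : List G | (∀ x ∈ l, x ∈ X ∨ x⁻¹ ∈ X) ∧ l.prod = g}, (l.length : ℕ∞)

/-- The width of `G` with respect to `X`. -/
noncomputable def width {G : Type w} [Group G] (X : Set G) : ℕ∞ := ⨆ g : G, wordLength X g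

/-- The set of the commutators `[a, b] = a⁻¹ b⁻¹ a b`. -/
def commutators (G : Type w) [Group G] : Set G := {x | ∃ a b : G, x = a⁻¹ * b⁻¹ * a * b}

/-- **Full answer to Q1 (positive).** For every division ring `D` and every infinite-dimensional
vector space `V` over `D` (in any universes) every element of `GL(V)` is a commutator, and the
commutator width of `GL(V)` is exactly `1`. -/
theorem result : ∀ (D : Type u) [DivisionRing D] (V : Type w) [AddCommGroup V] [Module D V],
    ¬ Module.Finite D V →
      (∀ g : V ≃ₗ[D] V, ∃ a b : V ≃ₗ[D] V, g = a⁻¹ * b⁻¹ * a * b) ∧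
      Subgroup.closure (commutators (V ≃ₗ[D] V)) = ⊤ ∧
      width (commutators (V ≃ₗ[D] V)) = 1 := by
  intro D _ V _ _ h
  have h1 : ∀ g : V ≃ₗ[D] V, ∃ a b : V ≃ₗ[D] V, g = a⁻¹ * b⁻¹ * a * b := by
    intro g
    obtain ⟨a, b, hab⟩ := Pool.Agent.Lib.MP_3fc405_al.main (D := D) (V := V) h g
    have key : a * b = g * b * a := by
      ext x
      exact hab x
    refine ⟨a⁻¹, b⁻¹, ?_⟩
    rw [inv_inv, inv_inv, key]
    group
  refine ⟨h1, ?_, ?_⟩
  · rw [eq_top_iff]
    intro g _
    exact Subgroup.subset_closure (h1 g)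
  · obtain ⟨ι, ⟨v⟩⟩ : ∃ ι : Type w, Nonempty (Module.Basis ι D V) :=
      ⟨_, ⟨Module.Basis.ofVectorSpace D V⟩⟩
    have hι : Infinite ι := by
      by_contra hfin
      rw [not_infinite_iff_finite] at hfin
      exact h (Module.Finite.of_basis v)
    obtain ⟨i, j, hij⟩ := exists_pair_ne ι
    classical
    set g : V ≃ₗ[D] V := v.equiv v (Equiv.swap i j) with hg
    have hg1 : g ≠ 1 := by
      intro h1
      have h2 : g (v i) = v j := by
        rw [hg, Module.Basis.equiv_apply, Equiv.swap_apply_left]
      rw [h1] at h2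
      exact hij (v.injective h2)
    apply le_antisymm
    · refine iSup_le fun x => ?_
      refine (iInf₂_le [x] ⟨?_, List.prod_singleton⟩).trans (by simp)
      intro y hy
      rw [List.mem_singleton] at hy
      subst hy
      exact Or.inl (h1 y)
    · refine le_trans ?_ (le_iSup _ g)
      refine le_iInf₂ fun l hl => ?_
      have hl0 : l ≠ [] := by
        rintro rfl
        exact hg1 hl.2.symm
      have : 1 ≤ l.length := List.length_pos_iff.2 hl0
      exact_mod_cast this

end Pool.Agent.Results.MP_3fc405_al.CommutatorWidth
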